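import Pool.Agent.LibSC37.Defs

open Set Filter Topology Cardinal TopologicalSpace

namespace Pool.Agent.LibSC37

universe u v

/-- A basic neighbourhood in the topology of pointwise convergence. -/
theorem basic_nbhd {M : Type u} [TopologicalSpace M] {V : Set (SCp M)} (hV : IsOpen V)
    (f : SCp M) (hf : f ∈ V) : ∃ (P : List (Σ n : ℕ, (Fin n → M))) (ε : ℝ), 0 < ε ∧
      ∀ g : SCp M, (∀ p ∈ P, |g.1 p - f.1 p| < ε) → g ∈ V := by
  obtain ⟨U, hU, rfl⟩ := isOpen_induced_iff.1 hV
  obtain ⟨I, u, hu, hIU⟩ := isOpen_pi_iff.1 hU f.1 hf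
  have hε : ∀ s : Finset (Σ n : ℕ, (Fin n → M)), s ⊆ I → ∃ ε : ℝ, 0 < ε ∧
      ∀ p ∈ s, ∀ y : ℝ, |y - f.1 p| < ε → y ∈ u p := by
    classical
    intro s
    induction s using Finset.induction_on with
    | empty => intro _; exact ⟨1, one_pos, by simp⟩
    | insert a s ha ih =>
      intro hs
      obtain ⟨ε, hε, h⟩ := ih ((Finset.subset_insert _ _).trans hs)
      have hmem : a ∈ I := hs (Finset.mem_insert_self _ _)
      obtain ⟨δ, hδ, hb⟩ := Metric.isOpen_iff.1 (hu a hmem).1 _ (hu a hmem).2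
      refine ⟨min ε δ, lt_min hε hδ, ?_⟩
      intro p hp y hy
      rcases Finset.mem_insert.1 hp with rfl | hp
      · apply hb
        rw [Metric.mem_ball, Real.dist_eq]
        exact lt_of_lt_of_le hy (min_le_right _ _)
      · exact h p hp y (lt_of_lt_of_le hy (min_le_left _ _))
  obtain ⟨ε, hε, h⟩ := hε I subset_rfl
  refine ⟨I.toList, ε, hε, ?_⟩
  intro g hg
  apply hIU
  intro p hp
  exact h p hp _ (hg p (by simpa using hp))

/-- Evaluations are continuous. -/
theorem continuous_eval {M : Type u} [TopologicalSpace M] (p : Σ n : ℕ, (Fin n → M)) :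
    Continuous fun f : SCp M => f.1 p :=
  (continuous_apply p).comp continuous_subtype_val

theorem nhds_eval {M : Type u} [TopologicalSpace M] {X : Type v} [TopologicalSpace X]
    {e : X → SCp M} (he : Continuous e) (x0 : X) (P : List (Σ n : ℕ, (Fin n → M))) {ε : ℝ}
    (hε : 0 < ε) : {x : X | ∀ p ∈ P, |(e x).1 p - (e x0).1 p| < ε} ∈ 𝓝 x0 := by
  induction P with
  | nil => simp
  | cons a P ih =>
    have h1 : Continuous fun x : X => |(e x).1 a - (e x0).1 a| :=
      (((continuous_eval a).comp he).sub continuous_const).abs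
    have h2 : ∀ᶠ x in 𝓝 x0, |(e x).1 a - (e x0).1 a| < ε := by
      apply h1.continuousAt.eventually_lt continuousAt_const
      simpa using hε
    filter_upwards [h2, ih] with x hx1 hx2
    intro p hp
    rcases List.mem_cons.1 hp with rfl | hp
    · exact hx1
    · exact hx2 p hp

theorem mk_T : #T = 𝔠 := by
  simp [T]

theorem uncountable_T : ¬ Countable T := by
  intro h
  have h1 : #T ≤ ℵ₀ := mk_le_aleph0_iff.2 h
  rw [mk_T] at h1
  exact absurd h1 (not_le.2 aleph0_lt_continuum)

end Pool.Agent.LibSC37
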