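import Mathlib

/-!
# A sigma-space of countable i-weight outside the class `SC_p(M_0^{<ω})`: definitions
-/

open Set Filter Topology Cardinal TopologicalSpace

namespace Pool.Agent.LibSC37

universe u v

/-! ### The class (same definitions as in the problem) -/

/-- A function on the finite power `M^n` is separately continuous. -/
def SepCont {M : Type u} [TopologicalSpace M] {n : ℕ} (f : (Fin n → M) → ℝ) : Prop :=
  ∀ (x : Fin n → M) (i : Fin n), Continuous fun t : M => f (Function.update x i t)

/-- The set underlying `SC_p(M^{<ω})`: all real functions on the disjoint sum of the finite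
powers of `M` whose restriction to each power is separately continuous. -/
def SCp (M : Type u) [TopologicalSpace M] : Type u :=
  {f : (Σ n : ℕ, (Fin n → M)) → ℝ // ∀ n : ℕ, SepCont fun x : Fin n → M => f ⟨n, x⟩}

/-- The topology of pointwise convergence on `SC_p(M^{<ω})`. -/
instance (M : Type u) [TopologicalSpace M] : TopologicalSpace (SCp M) :=
  inferInstanceAs (TopologicalSpace
    {f : (Σ n : ℕ, (Fin n → M)) → ℝ // ∀ n : ℕ, SepCont fun x : Fin n → M => f ⟨n, x⟩})

/-- Membership in the class `SC_p(M_0^{<ω})`: the space embeds into `SC_p(M^{<ω})` for some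
separable metrizable `M`. -/
def InClass (X : Type) [TopologicalSpace X] : Prop :=
  ∃ (M : Type u) (_ : TopologicalSpace M), MetrizableSpace M ∧ SeparableSpace M ∧
    ∃ e : X → SCp M, IsEmbedding e

/-- A family of sets is a network. -/
def IsNetwork {X : Type*} [TopologicalSpace X] (N : Set (Set X)) : Prop :=
  ∀ (x : X) (U : Set X), IsOpen U → x ∈ U → ∃ A ∈ N, x ∈ A ∧ A ⊆ U

/-- A family of sets is locally finite. -/
def IsLocFin {X : Type*} [TopologicalSpace X] (N : Set (Set X)) : Prop :=
  ∀ x : X, ∃ U ∈ 𝓝 x, {A ∈ N | (A ∩ U).Nonempty}.Finite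

/-- A sigma-space: a regular `T_1` space with a sigma-locally finite network. -/
def IsSigmaSpace (X : Type*) [TopologicalSpace X] : Prop :=
  RegularSpace X ∧ T1Space X ∧
    ∃ N : ℕ → Set (Set X), (∀ k, IsLocFin (N k)) ∧ IsNetwork (⋃ k, N k)

/-! ### Nodes and branches -/

/-- The Cantor space. -/
abbrev T : Type := ℕ → Bool

/-- The first `n` digits of a point of the Cantor space. -/
def rs (n : ℕ) (x : T) : Fin n → Bool := fun i => x i

/-- The nodes: a level `n`, a word of length `n`, a set of words of length `n`. -/
abbrev Q : Type := Σ n : ℕ, (Fin n → Bool) × Set (Fin n → Bool)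

/-- The node of level `n` on the branch `x` which carries the set `S n`. -/
def nd (x : T) (S : ∀ n : ℕ, Set (Fin n → Bool)) (n : ℕ) : Q := ⟨n, rs n x, S n⟩

/-- The trace of a subset of the Cantor space on level `n`. -/
def tr (F : Set T) (n : ℕ) : Set (Fin n → Bool) := rs n '' F

/-- A sequence of clopen sets of the Cantor space converges pointwise. -/
def PC (S : ∀ n : ℕ, Set (Fin n → Bool)) : Prop :=
  ∀ r : T, ∃ b : Prop, ∀ᶠ n in atTop, (rs n r ∈ S n ↔ b)

/-- The values of `h` on the branch `t` along `F` and along `G` differ by more than `1/(k+1)`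
arbitrarily far out. -/
def osc (h : Q → ℝ) (F G : Set T) (k : ℕ) : Set T :=
  {t | ∀ N : ℕ, ∃ a ≥ N, ∃ b ≥ N, 1 / ((k : ℝ) + 1) < |h (nd t (tr F) a) - h (nd t (tr G) b)|}

/-- The branches on which some function of the family `e` fails to converge along some pointwise
convergent sequence. -/
def Fail {ι : Type v} (e : ι → Q → ℝ) : Set T :=
  {t | ∃ S : ∀ n : ℕ, Set (Fin n → Bool), PC S ∧
    ∃ l, ¬ ∃ c : ℝ, Tendsto (fun n => e l (nd t S n)) atTop (𝓝 c)}

/-- The branches on which all functions of the family have equal limits along `F` and along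
`F` without `r`. -/
def Good {ι : Type v} (e : ι → Q → ℝ) (F : Set T) (r : T) : Set T :=
  {t | ∀ l, ∃ c : ℝ, Tendsto (fun n => e l (nd t (tr F) n)) atTop (𝓝 c) ∧
    Tendsto (fun n => e l (nd t (tr (F \ {r})) n)) atTop (𝓝 c)}

/-! ### Iterated limits -/

/-- The iterated limit of a family of reals indexed by finite sequences of natural numbers. -/
noncomputable def iter : List (ℕ → ℕ) → (List ℕ → ℝ) → ℝ
  | [], b => b []
  | σ :: rest, b => limUnder atTop fun k => iter rest fun l => b (σ k :: l)

/-! ### The space -/

/-- The data of the space: branches indexed by `I`, each with a pointwise convergent sequence. -/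
structure Data (I : Type) where
  /-- the branch -/
  t : I → T
  inj : Function.Injective t
  /-- the sequence of clopen sets on the branch -/
  S : I → ∀ n : ℕ, Set (Fin n → Bool)
  pc : ∀ i, PC (S i)

variable {I : Type}

/-- The underlying set of the space: a point at infinity and countably many copies of the set of
nodes and branches. -/
inductive Sp (D : Data I) : Type
  | inf : Sp D
  | pt : ℕ → Q ⊕ I → Sp D

/-- The sets `W_r` in one copy. -/
def inW (D : Data I) (r : T) : Q ⊕ I → Prop
  | Sum.inl q => rs q.1 r ∈ q.2.2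
  | Sum.inr i => ∀ᶠ n in atTop, rs n r ∈ D.S i n

/-- The index set of the subbase of clopen sets: the nodes, the branches, the copies and the
sets `W_r`. -/
abbrev Ix (I : Type) : Type := (ℕ × Q) ⊕ (ℕ × I) ⊕ ℕ ⊕ T

/-- The clopen sets of the subbase. -/
def mem (D : Data I) : Ix I → Set (Sp D)
  | Sum.inl (j, q) => {x | x = Sp.pt j (Sum.inl q)}
  | Sum.inr (Sum.inl (j, i)) =>
      {x | x = Sp.pt j (Sum.inr i) ∨ ∃ n, x = Sp.pt j (Sum.inl (nd (D.t i) (D.S i) n))}
  | Sum.inr (Sum.inr (Sum.inl j)) => {x | ∃ y, x = Sp.pt j y}
  | Sum.inr (Sum.inr (Sum.inr r)) => {x | ∀ j y, x = Sp.pt j y → inW D r y}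

open Classical in
/-- The indicator functions of the clopen sets of the subbase. -/
noncomputable def chi (D : Data I) (x : Sp D) (a : Ix I) : Bool := decide (x ∈ mem D a)

/-- The topology of the space is generated by the sets of the subbase and their complements. -/
noncomputable instance (D : Data I) : TopologicalSpace (Sp D) :=
  TopologicalSpace.induced (chi D) inferInstance

/-- The basic neighbourhoods of the point at infinity. -/
def inU (D : Data I) (k : ℕ) (F : Set T) : Set (Sp D) :=
  {x | ∀ j y, x = Sp.pt j y → k ≤ j ∧ ∀ r ∈ F, inW D r y}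

end Pool.Agent.LibSC37
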