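import Pool.Agent.LibSC37.Defs

/-! # subsequences -/

open Set Filter Topology Cardinal TopologicalSpace

namespace Pool.Agent.LibSC37

universe u v

theorem exists_subseq {m : ℕ} (φ : ℕ → Fin m → T) :
    ∃ (s : ℕ → ℕ) (z : Fin m → T) (J : Set (Fin m)), StrictMono s ∧
      Tendsto (fun a => φ (s a)) atTop (𝓝 z) ∧ ∀ a i, φ (s a) i = z i ↔ i ∈ J := by
  obtain ⟨z, s1, hs1, hz⟩ := CompactSpace.tendsto_subseq φ
  obtain ⟨J, hJ⟩ := Finite.exists_infinite_fiber fun a : ℕ => {i | φ (s1 a) i = z i}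
  have hJ' : ∃ᶠ a in atTop, {i | φ (s1 a) i = z i} = J := by
    rw [Nat.frequently_atTop_iff_infinite]
    exact Set.infinite_coe_iff.1 hJ
  obtain ⟨s2, hs2, h2⟩ := extraction_of_frequently_atTop hJ'
  refine ⟨s1 ∘ s2, z, J, hs1.comp hs2, hz.comp hs2.tendsto_atTop, fun a i => ?_⟩
  have h3 := h2 a
  rw [← h3]
  rfl

end Pool.Agent.LibSC37
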