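import Pool.Agent.LibSC37.Defs

/-! # blocks -/

open Set Filter Topology Cardinal TopologicalSpace

namespace Pool.Agent.LibSC37

universe u v

theorem D_nd {t : T} {S S' : ∀ n : ℕ, Set (Fin n → Bool)} {n : ℕ} (h : S n = S' n) :
    nd t S n = nd t S' n := by
  simp only [nd, h]

theorem D_rs_mono {r r' : T} {N n : ℕ} (hN : N ≤ n) (h : rs n r = rs n r') :
    rs N r = rs N r' := by
  funext i
  have := congrFun h ⟨i, lt_of_lt_of_le i.2 hN⟩
  simpa [rs] using this

theorem D_sep {r r' : T} (h : r ≠ r') : ∃ N, ∀ n ≥ N, rs n r ≠ rs n r' := by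
  obtain ⟨i, hi⟩ := Function.ne_iff.1 h
  refine ⟨i + 1, fun n hn hc => hi ?_⟩
  have := congrFun hc ⟨i, by omega⟩
  simpa [rs] using this

theorem D_ev {m : ℕ} {φ : ℕ → Fin m → T} {z : Fin m → T} (hz : Tendsto φ atTop (𝓝 z))
    (i : Fin m) (N : ℕ) : ∀ᶠ a in atTop, rs N (φ a i) = rs N (z i) := by
  have h1 : Tendsto (fun a => φ a i) atTop (𝓝 (z i)) := (tendsto_pi_nhds.1 hz) i
  have h2 : ∀ j : Fin N, ∀ᶠ a in atTop, φ a i j = z i j := by
    intro j
    have h3 : Tendsto (fun a => φ a i j) atTop (𝓝 (z i j)) := (tendsto_pi_nhds.1 h1) j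
    rw [nhds_discrete, tendsto_pure] at h3
    exact h3
  filter_upwards [eventually_all.2 h2] with a ha
  funext j
  exact ha j

theorem exists_blocks {m : ℕ} {φ : ℕ → Fin m → T} {z : Fin m → T} {J : Set (Fin m)}
    {i₀ : Fin m} (hi₀ : i₀ ∉ J) (hz : Tendsto φ atTop (𝓝 z))
    (hJ : ∀ a i, φ a i = z i ↔ i ∈ J) (hinj : Function.Injective fun a => φ a i₀)
    {h : Q → ℝ} {k : ℕ} {t : T}
    (ht : ∀ a, t ∈ osc h (range (φ a)) (range (φ a) \ {φ a i₀}) k) :
    ∃ S : ∀ n : ℕ, Set (Fin n → Bool), PC S ∧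
      ¬ ∃ c : ℝ, Tendsto (fun n => h (nd t S n)) atTop (𝓝 c) := by
  classical
  -- thresholds
  have hs : ∀ a, ∃ N, ∀ n ≥ N, ∀ i, i ∉ J → rs n (z i) ≠ rs n (φ a i) := by
    intro a
    have h1 : ∀ i : Fin m, ∀ᶠ n in atTop, i ∉ J → rs n (z i) ≠ rs n (φ a i) := by
      intro i
      by_cases hi : i ∈ J
      · exact Eventually.of_forall fun n hn => absurd hi hn
      · have h2 : z i ≠ φ a i := fun hc => hi ((hJ a i).1 hc.symm)
        obtain ⟨N, hN⟩ := D_sep h2
        exact eventually_atTop.2 ⟨N, fun n hn _ => hN n hn⟩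
    obtain ⟨N, hN⟩ := eventually_atTop.1 (eventually_all.2 h1)
    exact ⟨N, fun n hn i hi => hN n hn i hi⟩
  choose s hs using hs
  have hAB : ∀ a N, ∃ A B, N ≤ A ∧ N ≤ B ∧
      1 / ((k : ℝ) + 1) < |h (nd t (tr (range (φ a))) A) -
        h (nd t (tr (range (φ a) \ {φ a i₀})) B)| := by
    intro a N
    obtain ⟨A, hA, B, hB, hlt⟩ := ht a N
    exact ⟨A, B, hA, hB, hlt⟩
  choose A B hA hB hlt using hAB
  let nn : ℕ → ℕ := fun a => Nat.rec (s 0)
    (fun a na => max (max (A a na) (B a na) + 2) (s (a + 1))) a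
  have nn_zero : nn 0 = s 0 := rfl
  have nn_succ : ∀ a, nn (a + 1) = max (max (A a (nn a)) (B a (nn a)) + 2) (s (a + 1)) :=
    fun a => rfl
  have hnA : ∀ a, nn a ≤ A a (nn a) := fun a => hA a _
  have hnB : ∀ a, nn a ≤ B a (nn a) := fun a => hB a _
  have hmn : ∀ a, max (A a (nn a)) (B a (nn a)) + 1 < nn (a + 1) := by
    intro a; rw [nn_succ]; omega
  have hsn : ∀ a, s a ≤ nn a := by
    intro a
    cases a with
    | zero => exact le_of_eq nn_zero.symm
    | succ a => rw [nn_succ]; exact le_max_right _ _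
  have hmono : StrictMono nn := by
    refine strictMono_nat_of_lt_succ fun a => ?_
    have := hmn a; have := hnA a; omega
  have hge : ∀ a, a ≤ nn a := hmono.id_le
  let blk : ℕ → ℕ := fun n => @Nat.findGreatest (fun a : ℕ => nn a ≤ n) (Classical.decPred _) n
  have blk_spec : ∀ n, nn 0 ≤ n → nn (blk n) ≤ n := by
    intro n hn
    exact @Nat.findGreatest_spec 0 (fun a : ℕ => nn a ≤ n) (Classical.decPred _) n (Nat.zero_le n) hn
  have blk_ge : ∀ a n, nn a ≤ n → a ≤ blk n := by
    intro a n hn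
    exact @Nat.le_findGreatest a (fun a : ℕ => nn a ≤ n) (Classical.decPred _) n (le_trans (hge a) hn) hn
  have blk_eq : ∀ a n, nn a ≤ n → n < nn (a + 1) → blk n = a := by
    intro a n h1 h2
    refine le_antisymm ?_ (blk_ge a n h1)
    by_contra hc
    have h3 : a + 1 ≤ blk n := by omega
    have h4 : nn (a + 1) ≤ nn (blk n) := hmono.monotone h3
    have h5 : nn (blk n) ≤ n := blk_spec n (le_trans (hmono.monotone (Nat.zero_le a)) h1)
    omega
  have blk_tend : ∀ a, ∀ᶠ n in atTop, a ≤ blk n := fun a =>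
    eventually_atTop.2 ⟨nn a, fun n hn => blk_ge a n hn⟩
  let useB : ℕ → Prop := fun a =>
    1 / (3 * ((k : ℝ) + 1)) < |h (nd t (tr (range (φ a))) (max (A a (nn a)) (B a (nn a)) + 1)) -
        h (nd t (tr (range (φ a) \ {φ a i₀})) (B a (nn a)))|
  let S : ∀ n : ℕ, Set (Fin n → Bool) := fun n =>
    if useB (blk n) ∧ n = B (blk n) (nn (blk n)) then tr (range (φ (blk n)) \ {φ (blk n) i₀}) n
    else tr (range (φ (blk n))) n
  have S_pos : ∀ n, (useB (blk n) ∧ n = B (blk n) (nn (blk n))) →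
      S n = tr (range (φ (blk n)) \ {φ (blk n) i₀}) n := fun n hn => if_pos hn
  have S_neg : ∀ n, ¬ (useB (blk n) ∧ n = B (blk n) (nn (blk n))) →
      S n = tr (range (φ (blk n))) n := fun n hn => if_neg hn
  have S_sub : ∀ n, S n ⊆ tr (range (φ (blk n))) n := by
    intro n
    by_cases hn : useB (blk n) ∧ n = B (blk n) (nn (blk n))
    · rw [S_pos n hn]; exact image_mono Set.sdiff_subset
    · rw [S_neg n hn]
  refine ⟨S, ?_, ?_⟩
  · intro r
    by_cases hr : ∃ i ∈ J, r = z i
    · obtain ⟨i, hi, rfl⟩ := hr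
      refine ⟨True, ?_⟩
      have hφ : ∀ a, φ a i = z i := fun a => (hJ a i).2 hi
      obtain ⟨a0, ha0⟩ : ∃ a0, ∀ a ≥ a0, φ a i₀ ≠ z i := by
        by_cases hex : ∃ a, φ a i₀ = z i
        · obtain ⟨a, ha⟩ := hex
          refine ⟨a + 1, fun b hb hc => ?_⟩
          have : b = a := hinj (hc.trans ha.symm)
          omega
        · exact ⟨0, fun a _ hc => hex ⟨a, hc⟩⟩
      filter_upwards [blk_tend a0] with n hn
      refine iff_true_intro ?_
      have hmem : z i ∈ range (φ (blk n)) := ⟨i, hφ _⟩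
      by_cases hc : useB (blk n) ∧ n = B (blk n) (nn (blk n))
      · rw [S_pos n hc]
        exact ⟨z i, ⟨hmem, fun hh => ha0 (blk n) hn (mem_singleton_iff.1 hh).symm⟩, rfl⟩
      · rw [S_neg n hc]
        exact ⟨z i, hmem, rfl⟩
    · push Not at hr
      refine ⟨False, ?_⟩
      have key : ∀ i : Fin m, ∀ᶠ n in atTop, rs n (φ (blk n) i) ≠ rs n r := by
        intro i
        by_cases hi : i ∈ J
        · obtain ⟨N, hN⟩ := D_sep (hr i hi)
          filter_upwards [eventually_ge_atTop N] with n hn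
          rw [(hJ (blk n) i).2 hi]
          exact (hN n hn).symm
        · by_cases hrz : r = z i
          · subst hrz
            filter_upwards [eventually_ge_atTop (nn 0)] with n hn
            have h1 := blk_spec n hn
            exact (hs (blk n) n (le_trans (hsn _) h1) i hi).symm
          · obtain ⟨N, hN⟩ := D_sep hrz
            obtain ⟨a1, ha1⟩ := eventually_atTop.1 (D_ev hz i N)
            filter_upwards [blk_tend a1, eventually_ge_atTop N] with n h1 h2 h3
            have h4 := D_rs_mono h2 h3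
            rw [ha1 _ h1] at h4
            exact hN N le_rfl h4.symm
      filter_upwards [eventually_all.2 key] with n hn
      refine iff_false_intro fun hmem => ?_
      obtain ⟨x, ⟨i, rfl⟩, hx⟩ := S_sub n hmem
      exact hn i hx
  · rintro ⟨c, hc⟩
    have hpos : (0 : ℝ) < 1 / (6 * ((k : ℝ) + 1)) := by positivity
    obtain ⟨N, hN⟩ := (Metric.tendsto_atTop.1 hc) _ hpos
    have hNn : N ≤ nn N := hge N
    have hdiff : ∀ n n', nn N ≤ n → nn N ≤ n' →
        |h (nd t S n) - h (nd t S n')| < 1 / (3 * ((k : ℝ) + 1)) := by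
      intro n n' h1 h2
      have h3 := hN n (le_trans hNn h1)
      have h4 := hN n' (le_trans hNn h2)
      rw [Real.dist_eq] at h3 h4
      have h5 : |h (nd t S n) - h (nd t S n')| ≤
          |h (nd t S n) - c| + |h (nd t S n') - c| := by
        have h6 := abs_sub_le (h (nd t S n)) c (h (nd t S n'))
        rw [abs_sub_comm c] at h6
        exact h6
      have h6 : 1 / (3 * ((k : ℝ) + 1)) = 1 / (6 * ((k : ℝ) + 1)) + 1 / (6 * ((k : ℝ) + 1)) := by
        field_simp
        norm_num
      rw [h6]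
      linarith
    set a := N with ha
    set mm := max (A a (nn a)) (B a (nn a)) + 1 with hmm
    have hmlt : mm < nn (a + 1) := hmn a
    have hAle := hnA a
    have hBle := hnB a
    have hAm : A a (nn a) < mm := by omega
    have hBm : B a (nn a) < mm := by omega
    have hbm : blk mm = a := blk_eq a mm (by omega) hmlt
    have hbA : blk (A a (nn a)) = a := blk_eq a _ hAle (by omega)
    have hbB : blk (B a (nn a)) = a := blk_eq a _ hBle (by omega)
    have hSm : S mm = tr (range (φ a)) mm := by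
      rw [S_neg mm]
      · rw [hbm]
      · rw [hbm]
        rintro ⟨_, h2⟩
        omega
    have hSm' : nd t S mm = nd t (tr (range (φ a))) mm := D_nd hSm
    by_cases hu : useB a
    · have hSB : S (B a (nn a)) = tr (range (φ a) \ {φ a i₀}) (B a (nn a)) := by
        rw [S_pos (B a (nn a))]
        · rw [hbB]
        · rw [hbB]; exact ⟨hu, rfl⟩
      have hSB' : nd t S (B a (nn a)) = nd t (tr (range (φ a) \ {φ a i₀})) (B a (nn a)) :=
        D_nd hSB
      have h1 := hdiff mm (B a (nn a)) (by omega) hBle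
      rw [hSm', hSB'] at h1
      exact absurd hu (not_lt.2 h1.le)
    · have hSA : S (A a (nn a)) = tr (range (φ a)) (A a (nn a)) := by
        rw [S_neg (A a (nn a))]
        · rw [hbA]
        · rw [hbA]; rintro ⟨h2, _⟩; exact hu h2
      have hSA' : nd t S (A a (nn a)) = nd t (tr (range (φ a))) (A a (nn a)) := D_nd hSA
      have h1 := hdiff (A a (nn a)) mm hAle (by omega)
      rw [hSm', hSA'] at h1
      have h2 := not_lt.1 hu
      have h3 := hlt a (nn a)
      have h4 := abs_sub_le (h (nd t (tr (range (φ a))) (A a (nn a))))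
        (h (nd t (tr (range (φ a))) mm)) (h (nd t (tr (range (φ a) \ {φ a i₀})) (B a (nn a))))
      have h5 : 1 / ((k : ℝ) + 1) = 3 * (1 / (3 * ((k : ℝ) + 1))) := by
        field_simp
      have h6 : (0 : ℝ) < 1 / (3 * ((k : ℝ) + 1)) := by positivity
      rw [h5] at h3
      linarith

end Pool.Agent.LibSC37
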