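import Pool.Agent.LibSC37.RowB
import Pool.Agent.LibSC37.RowC
import Pool.Agent.LibSC37.RowD

/-! # the category lemma -/

open Set Filter Topology Cardinal TopologicalSpace

namespace Pool.Agent.LibSC37

universe u v

theorem continuous_rs (N : ℕ) : Continuous (rs N) :=
  continuous_pi fun i => continuous_apply (i : ℕ)

theorem cylinder_eq_rs (x : T) (N : ℕ) :
    PiNat.cylinder (E := fun _ => Bool) x N = rs N ⁻¹' {rs N x} := by
  ext y
  rw [PiNat.mem_cylinder_iff, mem_preimage, mem_singleton_iff, funext_iff]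
  constructor
  · intro h i
    exact h i i.2
  · intro h i hi
    exact h ⟨i, hi⟩

theorem isClopen_cylinder' (x : T) (N : ℕ) :
    IsClopen (PiNat.cylinder (E := fun _ => Bool) x N) := by
  rw [cylinder_eq_rs]
  exact (isClopen_discrete _).preimage (continuous_rs N)

theorem residual_of_closure {O C : Set T} (hO : IsGδ O) (hC : IsClopen C)
    (h : C ⊆ closure O) : O ∪ Cᶜ ∈ residual T := by
  apply residual_of_dense_Gδ
  · exact hO.union hC.compl.isOpen.isGδ
  · intro y
    rw [closure_union]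
    by_cases hy : y ∈ C
    · exact Or.inl (h hy)
    · exact Or.inr (subset_closure hy)

theorem exists_enum {F : Set T} (hF : F.Finite) {r : T} (hr : r ∈ F) :
    ∃ (m : ℕ) (φ : Fin m → T) (i : Fin m), range φ = F ∧ φ i = r := by
  classical
  let E := hF.toFinset.equivFin
  refine ⟨hF.toFinset.card, fun i => (E.symm i).1, E ⟨r, hF.mem_toFinset.2 hr⟩, ?_, by simp⟩
  ext y
  constructor
  · rintro ⟨i, rfl⟩
    exact hF.mem_toFinset.1 (E.symm i).2
  · intro hy
    exact ⟨E ⟨y, hF.mem_toFinset.2 hy⟩, by simp⟩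

theorem countable_bad {ι : Type v} [Countable ι] (e : ι → Q → ℝ) (hF : #(Fail e) < 𝔠) :
    {r : T | ∃ F : Set T, F.Finite ∧ r ∈ F ∧ #(Good e F r) < 𝔠}.Countable := by
  classical
  -- the code of a bad point
  let Cd : Type v := ι × ℕ × (Σ N : ℕ, (Fin N → Bool)) × (Σ m : ℕ, Fin m)
  let Pr : Cd → Set T := fun c => {r | ∃ (x : T) (φ : Fin c.2.2.2.1 → T),
    rs c.2.2.1.1 x = c.2.2.1.2 ∧ φ c.2.2.2.2 = r ∧
    PiNat.cylinder (E := fun _ => Bool) x c.2.2.1.1 ⊆
      closure (osc (e c.1) (range φ) (range φ \ {r}) c.2.1)}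
  have hcov : {r : T | ∃ F : Set T, F.Finite ∧ r ∈ F ∧ #(Good e F r) < 𝔠} ⊆ ⋃ c, Pr c := by
    rintro r ⟨F, hFf, hrF, hG⟩
    obtain ⟨l, k, x, N, h⟩ := dense_of_good_small e F r hG
    obtain ⟨m, φ, i, hφ, hi⟩ := exists_enum hFf hrF
    rw [mem_iUnion]
    exact ⟨(l, k, ⟨N, rs N x⟩, ⟨m, i⟩), x, φ, rfl, hi, by rw [hφ]; exact h⟩
  by_contra hcon
  have hinf : ∃ c, (Pr c).Infinite := by
    by_contra h
    push Not at h
    apply hcon
    refine Countable.mono hcov (countable_iUnion fun c => ?_)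
    exact (h c).countable
  obtain ⟨⟨l, k, ⟨N, w⟩, ⟨m, i₀⟩⟩, hc⟩ := hinf
  let ρ := hc.natEmbedding
  have hρ : ∀ a : ℕ, ∃ (x : T) (φ : Fin m → T), rs N x = w ∧ φ i₀ = (ρ a : T) ∧
      PiNat.cylinder (E := fun _ => Bool) x N ⊆
        closure (osc (e l) (range φ) (range φ \ {(ρ a : T)}) k) := fun a => (ρ a).2
  choose x φ hx hφ hcl using hρ
  obtain ⟨s, z, J, hs, hz, hJ⟩ := exists_subseq φ
  have hinj : Function.Injective fun a => φ (s a) i₀ := by
    intro a b h
    simp only [hφ] at h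
    exact hs.injective (ρ.injective (Subtype.ext h))
  have hi₀ : i₀ ∉ J := by
    intro h
    have h0 := (hJ 0 i₀).2 h
    have h1 := (hJ 1 i₀).2 h
    exact absurd (hinj (h0.trans h1.symm)) (by norm_num)
  -- the cylinder
  have hC : ∀ a, PiNat.cylinder (E := fun _ => Bool) (x a) N =
      PiNat.cylinder (E := fun _ => Bool) (x 0) N := by
    intro a
    rw [cylinder_eq_rs, cylinder_eq_rs, hx, hx]
  set C := PiNat.cylinder (E := fun _ => Bool) (x 0) N with hCd
  have hres : ∀ a, osc (e l) (range (φ (s a))) (range (φ (s a)) \ {φ (s a) i₀}) k ∪ Cᶜ ∈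
      residual T := by
    intro a
    refine residual_of_closure (osc_isGδ _ _ _ _) (isClopen_cylinder' _ _) ?_
    rw [hφ, ← hC (s a)]
    exact hcl (s a)
  have hR := countable_iInter_mem.2 hres
  have hcard := residual_card hR (x 0) N
  refine absurd (hcard.trans (mk_le_mk_of_subset ?_)) (not_le.2 hF)
  rintro t ⟨ht, htC⟩
  have ht' : ∀ a, t ∈ osc (e l) (range (φ (s a))) (range (φ (s a)) \ {φ (s a) i₀}) k := by
    intro a
    rcases mem_iInter.1 ht a with h | h
    · exact h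
    · exact absurd htC h
  obtain ⟨S, hS, hlim⟩ := exists_blocks (φ := fun a => φ (s a)) hi₀ hz hJ hinj ht'
  exact ⟨S, hS, l, hlim⟩

end Pool.Agent.LibSC37
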