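import Pool.Agent.LibSC37.Defs

/-! # evaluation by iterated limits -/

open Set Filter Topology Cardinal TopologicalSpace

namespace Pool.Agent.LibSC37

universe u v

/-- The list form of a function on the sum of the finite powers. -/
def F_fl {M : Type u} (f : (Σ n : ℕ, (Fin n → M)) → ℝ) (l : List M) : ℝ := f ⟨l.length, l.get⟩

theorem F_sigma {M : Type u} {n m : ℕ} (h : n = m) (v : Fin n → M) :
    (⟨n, v⟩ : Σ n : ℕ, (Fin n → M)) = ⟨m, fun i => v (Fin.cast h.symm i)⟩ := by
  subst h; rfl

theorem F_cont {M : Type u} [TopologicalSpace M] (f : (Σ n : ℕ, (Fin n → M)) → ℝ)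
    (hf : ∀ n : ℕ, SepCont fun x : Fin n → M => f ⟨n, x⟩) (l1 l2 : List M) :
    Continuous fun a : M => F_fl f (l1 ++ a :: l2) := by
  rcases isEmpty_or_nonempty M with hM | ⟨⟨b⟩⟩
  · exact continuous_of_const fun a => hM.elim a
  · have hlen : ∀ a : M, (l1 ++ a :: l2).length = l1.length + (l2.length + 1) := by
      intro a; simp
    let v : M → Fin (l1.length + (l2.length + 1)) → M := fun a i =>
      (l1 ++ a :: l2).get (Fin.cast (hlen a).symm i)
    have hv : ∀ a, F_fl f (l1 ++ a :: l2) = f ⟨l1.length + (l2.length + 1), v a⟩ := by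
      intro a
      unfold F_fl
      rw [F_sigma (hlen a)]
    have hv2 : ∀ a, v a = Function.update (v b) ⟨l1.length, by omega⟩ a := by
      intro a
      funext j
      by_cases hj : j = ⟨l1.length, by omega⟩
      · rw [hj, Function.update_self]
        simp [v]
      · rw [Function.update_of_ne hj]
        have hj' : (j : ℕ) ≠ l1.length := fun hc => hj (Fin.ext hc)
        simp only [v, List.get_eq_getElem, Fin.val_cast]
        rcases lt_or_gt_of_ne hj' with hlt | hgt
        · rw [List.getElem_append_left hlt, List.getElem_append_left hlt]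
        · obtain ⟨d, hd⟩ : ∃ d, (j : ℕ) - l1.length = d + 1 := ⟨(j : ℕ) - l1.length - 1, by omega⟩
          rw [List.getElem_append_right hgt.le, List.getElem_append_right hgt.le]
          simp only [hd, List.getElem_cons_succ]
    have := hf (l1.length + (l2.length + 1)) (v b) ⟨l1.length, by omega⟩
    refine this.congr fun a => ?_
    rw [hv a, hv2 a]

theorem F_eval {M : Type u} [TopologicalSpace M] (D : ℕ → M)
    (hD : ∀ a : M, ∃ s : ℕ → ℕ, Tendsto (fun k => D (s k)) atTop (𝓝 a)) (p : List M) :
    ∃ σ : List (ℕ → ℕ), ∀ f : (Σ n : ℕ, (Fin n → M)) → ℝ,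
      (∀ n : ℕ, SepCont fun x : Fin n → M => f ⟨n, x⟩) → ∀ pre : List M,
        F_fl f (pre ++ p) = iter σ fun l => F_fl f (pre ++ l.map D) := by
  induction p with
  | nil => exact ⟨[], fun f _ pre => by simp [iter]⟩
  | cons a p ih =>
    obtain ⟨σ, hσ⟩ := ih
    obtain ⟨s, hs⟩ := hD a
    refine ⟨s :: σ, fun f hf pre => ?_⟩
    have h1 : ∀ k, (iter σ fun l => F_fl f (pre ++ (s k :: l).map D)) =
        F_fl f (pre ++ D (s k) :: p) := by
      intro k
      have h2 := hσ f hf (pre ++ [D (s k)])
      rw [List.append_assoc, List.singleton_append] at h2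
      rw [h2]
      congr 1
      funext l
      simp
    have h3 : Tendsto (fun k => iter σ fun l => F_fl f (pre ++ (s k :: l).map D)) atTop
        (𝓝 (F_fl f (pre ++ a :: p))) := by
      simp only [h1]
      exact ((F_cont f hf pre p).tendsto a).comp hs
    simp only [iter]
    exact h3.limUnder_eq.symm

theorem eval_iter {X : Type} [TopologicalSpace X] {M : Type u} [TopologicalSpace M]
    [MetrizableSpace M] [SeparableSpace M] (e : X → SCp M) (he : Continuous e) :
    ∃ g : List ℕ → X → ℝ, (∀ l, Continuous (g l)) ∧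
      ∀ p : Σ n : ℕ, (Fin n → M), ∃ σ : List (ℕ → ℕ), ∀ x, (e x).1 p = iter σ fun l => g l x := by
  have hev : ∀ p : Σ n : ℕ, (Fin n → M), Continuous fun x => (e x).1 p := by
    intro p
    have h1 : Continuous fun u : SCp M => u.1 p :=
      (continuous_apply p).comp continuous_subtype_val
    exact h1.comp he
  rcases isEmpty_or_nonempty M with hM | hM
  · refine ⟨fun _ x => (e x).1 ⟨0, fun i => i.elim0⟩, fun _ => hev _, fun p => ⟨[], fun x => ?_⟩⟩
    obtain ⟨n, v⟩ := p
    cases n with
    | zero =>
      simp only [iter]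
      have : v = fun i => i.elim0 := by funext i; exact i.elim0
      rw [this]
    | succ n => exact hM.elim (v 0)
  · let _ := metrizableSpaceMetric M
    obtain ⟨D, hD⟩ := exists_dense_seq M
    have hD' : ∀ a : M, ∃ s : ℕ → ℕ, Tendsto (fun k => D (s k)) atTop (𝓝 a) := by
      intro a
      have h1 : a ∈ closure (range D) := hD a
      obtain ⟨x, hx, hxa⟩ := mem_closure_iff_seq_limit.1 h1
      choose s hs using hx
      refine ⟨s, ?_⟩
      simpa [hs] using hxa
    refine ⟨fun l x => F_fl (e x).1 (l.map D), fun l => hev _, fun p => ?_⟩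
    obtain ⟨σ, hσ⟩ := F_eval D hD' (List.ofFn p.2)
    refine ⟨σ, fun x => ?_⟩
    have h1 := hσ (e x).1 (e x).2 []
    simp only [List.nil_append] at h1
    rw [← h1]
    exact congrArg (e x).1 (List.equivSigmaTuple.apply_symm_apply p).symm

end Pool.Agent.LibSC37
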