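import Pool.Agent.LibSC37.RowH

/-! # a base of cardinality at most the continuum -/

open Set Filter Topology Cardinal TopologicalSpace

namespace Pool.Agent.LibSC37

universe u v

variable {I : Type}

theorem mk_Ix_le (hI : #I ≤ 𝔠) : #(Ix I) ≤ 𝔠 := by
  have hQ : #(ℕ × Q) ≤ 𝔠 := (mk_le_aleph0 (α := ℕ × Q)).trans aleph0_le_continuum
  have hN : #ℕ ≤ 𝔠 := (mk_le_aleph0 (α := ℕ)).trans aleph0_le_continuum
  have hT : #T ≤ 𝔠 := by
    have : #T = 𝔠 := by simp [T]
    exact this.le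
  have hNI : #(ℕ × I) ≤ 𝔠 := by
    rw [mk_prod, lift_id, lift_id]
    exact mul_le_of_le aleph0_le_continuum hN hI
  show #((ℕ × Q) ⊕ (ℕ × I) ⊕ ℕ ⊕ T) ≤ 𝔠
  rw [mk_sum, lift_id, lift_id]
  refine add_le_of_le aleph0_le_continuum hQ ?_
  rw [mk_sum, lift_id, lift_id]
  refine add_le_of_le aleph0_le_continuum hNI ?_
  rw [mk_sum, lift_id, lift_id]
  exact add_le_of_le aleph0_le_continuum hN hT

theorem exists_base (D : Data I) (hI : #I ≤ 𝔠) :
    ∃ B : Set (Set (Sp D)), IsTopologicalBasis B ∧ (∀ U ∈ B, IsClopen U) ∧ #B ≤ 𝔠 := by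
  classical
  let f : Finset (Ix I) × Finset (Ix I) → Set (Sp D) := fun st =>
    {x | (∀ a ∈ st.1, x ∈ mem D a) ∧ ∀ a ∈ st.2, x ∉ mem D a}
  have hclo : ∀ U ∈ range f, IsClopen U := by
    rintro _ ⟨st, rfl⟩
    have h1 : IsClopen (⋂ a ∈ st.1, mem D a) :=
      isClopen_biInter_finset fun a _ => isClopen_mem D a
    have h2 : IsClopen (⋂ a ∈ st.2, (mem D a)ᶜ) :=
      isClopen_biInter_finset fun a _ => (isClopen_mem D a).compl
    have h3 : f st = (⋂ a ∈ st.1, mem D a) ∩ ⋂ a ∈ st.2, (mem D a)ᶜ := by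
      ext x
      simp [f]
    rw [h3]
    exact h1.inter h2
  refine ⟨range f, ?_, hclo, ?_⟩
  · refine isTopologicalBasis_of_isOpen_of_nhds (fun U hU => (hclo U hU).isOpen) ?_
    · intro x u hx hu
      obtain ⟨V, hV, rfl⟩ := isOpen_induced_iff.1 hu
      obtain ⟨s, w, hw, hs⟩ := isOpen_pi_iff.1 hV _ hx
      refine ⟨f (s.filter fun a => x ∈ mem D a, s.filter fun a => x ∉ mem D a), ⟨_, rfl⟩, ?_, ?_⟩
      · refine ⟨fun a ha => (Finset.mem_filter.1 ha).2, fun a ha => (Finset.mem_filter.1 ha).2⟩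
      · intro y hy
        apply hs
        intro a ha
        have : chi D y a = chi D x a := by
          unfold chi
          by_cases hxa : x ∈ mem D a
          · have := hy.1 a (Finset.mem_filter.2 ⟨ha, hxa⟩)
            simp [this, hxa]
          · have := hy.2 a (Finset.mem_filter.2 ⟨ha, hxa⟩)
            simp [this, hxa]
        rw [this]
        exact (hw a ha).2
  · refine mk_range_le.trans ?_
    have hinf : Infinite (Ix I) :=
      Infinite.of_injective (fun n : ℕ => (Sum.inr (Sum.inr (Sum.inl n)) : Ix I)) (by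
        intro a b h
        simpa using h)
    simp only [mk_prod, lift_id, mk_finset_of_infinite]
    exact mul_le_of_le aleph0_le_continuum (mk_Ix_le hI) (mk_Ix_le hI)

end Pool.Agent.LibSC37
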