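import Pool.Agent.LibSC37.RowI

/-! # the network and the injection -/

open Set Filter Topology Cardinal TopologicalSpace

namespace Pool.Agent.LibSC37

universe u v

variable {I : Type}

/-- The families of the network. -/
def J_fam (D : Data I) : Option (ℕ ⊕ (ℕ × Q)) → Set (Set (Sp D))
  | none => {{Sp.inf}}
  | some (Sum.inl j) => {A | ∃ i : I, A = {Sp.pt j (Sum.inr i)}}
  | some (Sum.inr (j, q)) => {{Sp.pt j (Sum.inl q)}}

theorem J_single {X : Type*} [TopologicalSpace X] (B : Set X) : IsLocFin ({B} : Set (Set X)) := by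
  intro x
  refine ⟨univ, univ_mem, ?_⟩
  exact (Set.finite_singleton B).subset (fun A hA => hA.1)

theorem J_fam_locFin (D : Data I) (a : Option (ℕ ⊕ (ℕ × Q))) : IsLocFin (J_fam D a) := by
  rcases a with _ | j | ⟨j, q⟩
  · exact J_single _
  · intro x
    by_cases hx : x ∈ mem D (Sum.inr (Sum.inr (Sum.inl j)))
    · obtain ⟨y, rfl⟩ := hx
      rcases y with q | i
      · refine ⟨mem D (Sum.inl (j, q)), (isClopen_mem D _).isOpen.mem_nhds rfl, ?_⟩
        convert Set.finite_empty
        rw [Set.eq_empty_iff_forall_notMem]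
        rintro A ⟨⟨i, rfl⟩, z, hz1, hz2⟩
        have h1 : z = Sp.pt j (Sum.inr i) := hz1
        have h2 : z = Sp.pt j (Sum.inl q) := hz2
        rw [h1] at h2
        simp at h2
      · refine ⟨mem D (Sum.inr (Sum.inl (j, i))), (isClopen_mem D _).isOpen.mem_nhds (Or.inl rfl),
          ?_⟩
        refine (Set.finite_singleton ({Sp.pt j (Sum.inr i)} : Set (Sp D))).subset ?_
        rintro A ⟨⟨i', rfl⟩, z, hz1, hz2⟩
        have h1 : z = Sp.pt j (Sum.inr i') := hz1
        rcases hz2 with h2 | ⟨n, h2⟩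
        · rw [h1] at h2
          show ({Sp.pt j (Sum.inr i')} : Set (Sp D)) = {Sp.pt j (Sum.inr i)}
          rw [h2]
        · rw [h1] at h2
          simp at h2
    · refine ⟨(mem D (Sum.inr (Sum.inr (Sum.inl j))))ᶜ,
        (isClopen_mem D _).compl.isOpen.mem_nhds hx, ?_⟩
      convert Set.finite_empty
      rw [Set.eq_empty_iff_forall_notMem]
      rintro A ⟨⟨i, rfl⟩, z, hz1, hz2⟩
      have h1 : z = Sp.pt j (Sum.inr i) := hz1
      exact hz2 ⟨_, h1⟩
  · exact J_single _

theorem J_countQ : Countable Q := by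
  have : ∀ n : ℕ, Countable ((Fin n → Bool) × Set (Fin n → Bool)) := fun n =>
    Finite.to_countable
  infer_instance

theorem sigma_space (D : Data I) : IsSigmaSpace (Sp D) := by
  have := t35 D
  refine ⟨inferInstance, inferInstance, ?_⟩
  have := J_countQ
  obtain ⟨f, hf⟩ := exists_surjective_nat (Option (ℕ ⊕ (ℕ × Q)))
  refine ⟨fun k => J_fam D (f k), fun k => J_fam_locFin D _, ?_⟩
  intro x U _ hx
  refine ⟨{x}, ?_, rfl, by simpa using hx⟩
  rw [mem_iUnion]
  rcases x with _ | ⟨j, q | i⟩
  · obtain ⟨k, hk⟩ := hf none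
    refine ⟨k, ?_⟩
    rw [hk]; rfl
  · obtain ⟨k, hk⟩ := hf (some (Sum.inr (j, q)))
    refine ⟨k, ?_⟩
    rw [hk]; rfl
  · obtain ⟨k, hk⟩ := hf (some (Sum.inl j))
    refine ⟨k, ?_⟩
    rw [hk]; exact ⟨i, rfl⟩

open Classical in
/-- The first `n` digits of the point in the copy `j`. -/
noncomputable def J_g (D : Data I) (j n : ℕ) : Sp D → Option (Fin n → Bool)
  | Sp.inf => none
  | Sp.pt j' (Sum.inl q) =>
      if h : j' = j ∧ n ≤ q.1 then some (fun k => q.2.1 (Fin.castLE h.2 k)) else none
  | Sp.pt j' (Sum.inr i) => if j' = j then some (rs n (D.t i)) else none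

theorem J_g_out (D : Data I) (j n : ℕ) (x : Sp D)
    (hx : x ∉ mem D (Sum.inr (Sum.inr (Sum.inl j)))) : J_g D j n x = none := by
  rcases x with _ | ⟨j', q | i⟩
  · rfl
  · have : j' ≠ j := by
      rintro rfl
      exact hx ⟨_, rfl⟩
    simp only [J_g]
    rw [dif_neg]
    rintro ⟨h, -⟩
    exact this h
  · have : j' ≠ j := by
      rintro rfl
      exact hx ⟨_, rfl⟩
    simp only [J_g]
    rw [if_neg this]

theorem J_g_loc (D : Data I) (j n : ℕ) : IsLocallyConstant (J_g D j n) := by
  rw [IsLocallyConstant.iff_eventually_eq]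
  intro x
  by_cases hx : x ∈ mem D (Sum.inr (Sum.inr (Sum.inl j)))
  · obtain ⟨y, rfl⟩ := hx
    rcases y with q | i
    · filter_upwards [(isClopen_mem D (Sum.inl (j, q))).isOpen.mem_nhds rfl] with y hy
      have h2 : y = Sp.pt j (Sum.inl q) := hy
      rw [h2]
    · have h1 : ∀ᶠ y in 𝓝 (Sp.pt j (Sum.inr i) : Sp D), ∀ m ∈ Finset.range n,
          y ∉ mem D (Sum.inl (j, nd (D.t i) (D.S i) m)) := by
        rw [Filter.eventually_all_finset]
        intro m _
        refine (isClopen_mem D _).compl.isOpen.mem_nhds ?_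
        intro h
        have h2 : (Sp.pt j (Sum.inr i) : Sp D) = Sp.pt j (Sum.inl (nd (D.t i) (D.S i) m)) := h
        simp at h2
      filter_upwards [h1, (isClopen_mem D (Sum.inr (Sum.inl (j, i)))).isOpen.mem_nhds
        (Or.inl rfl)] with y hy1 hy2
      rcases hy2 with h2 | ⟨m, h2⟩
      · rw [h2]
      · have hm : n ≤ m := by
          by_contra hlt
          exact hy1 m (Finset.mem_range.2 (by omega)) h2
        rw [h2]
        show (if h : j = j ∧ n ≤ m then
            some (fun k => (rs m (D.t i)) (Fin.castLE h.2 k)) else none) =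
          if j = j then some (rs n (D.t i)) else none
        rw [dif_pos ⟨rfl, hm⟩, if_pos rfl]
        rfl
  · filter_upwards [(isClopen_mem D (Sum.inr (Sum.inr (Sum.inl j)))).compl.isOpen.mem_nhds hx]
      with y hy
    rw [J_g_out D j n x hx, J_g_out D j n y hy]

/-- The countable index set of the clopen sets which separate the points. -/
abbrev J_K : Type := (ℕ × Q) ⊕ ℕ ⊕ (Σ n : ℕ, ℕ × (Fin n → Bool))

/-- The separating clopen sets. -/
def J_E (D : Data I) : J_K → Set (Sp D)
  | Sum.inl (j, q) => mem D (Sum.inl (j, q))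
  | Sum.inr (Sum.inl j) => mem D (Sum.inr (Sum.inr (Sum.inl j)))
  | Sum.inr (Sum.inr ⟨n, j, w⟩) => J_g D j n ⁻¹' {some w}

theorem J_E_clopen (D : Data I) (a : J_K) : IsClopen (J_E D a) := by
  rcases a with ⟨j, q⟩ | j | ⟨n, j, w⟩
  · exact isClopen_mem D (Sum.inl (j, q))
  · exact isClopen_mem D (Sum.inr (Sum.inr (Sum.inl j)))
  · exact (J_g_loc D j n).isClopen_fiber (some w)

theorem J_sep (D : Data I) (x y : Sp D) (h : ∀ a, x ∈ J_E D a ↔ y ∈ J_E D a) : x = y := by
  have hc : ∀ (j : ℕ) (z : Q ⊕ I), (Sp.inf : Sp D) ≠ Sp.pt j z := by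
    intro j z h; simp at h
  rcases x with _ | ⟨j, u⟩ <;> rcases y with _ | ⟨j', u'⟩
  · rfl
  · obtain ⟨z, hz⟩ := (h (Sum.inr (Sum.inl j'))).2 ⟨_, rfl⟩
    exact absurd hz (hc _ _)
  · obtain ⟨z, hz⟩ := (h (Sum.inr (Sum.inl j))).1 ⟨_, rfl⟩
    exact absurd hz (hc _ _)
  · obtain ⟨z, hz⟩ := (h (Sum.inr (Sum.inl j))).1 ⟨_, rfl⟩
    have hj : j' = j := by
      have := Sp.pt.inj hz
      exact this.1
    subst hj
    rcases u with q | i
    · have h1 : (Sp.pt j' u' : Sp D) = Sp.pt j' (Sum.inl q) := (h (Sum.inl (j', q))).1 rfl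
      exact h1.symm
    · rcases u' with q' | i'
      · have h1 : (Sp.pt j' (Sum.inr i) : Sp D) = Sp.pt j' (Sum.inl q') :=
          (h (Sum.inl (j', q'))).2 rfl
        exact h1
      · have h2 : D.t i = D.t i' := by
          funext k
          have h3 := (h (Sum.inr (Sum.inr ⟨k + 1, j', rs (k + 1) (D.t i)⟩))).1
            (by
              show (if j' = j' then some (rs (k + 1) (D.t i)) else none) =
                some (rs (k + 1) (D.t i))
              rw [if_pos rfl])
          have h4 : (if j' = j' then some (rs (k + 1) (D.t i')) else none) =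
              some (rs (k + 1) (D.t i)) := h3
          rw [if_pos rfl] at h4
          have h5 : rs (k + 1) (D.t i') = rs (k + 1) (D.t i) := Option.some.inj h4
          have h6 := congrFun h5 ⟨k, by omega⟩
          exact h6.symm
        rw [D.inj h2]

theorem exists_injection (D : Data I) :
    ∃ f : Sp D → T, Continuous f ∧ Function.Injective f := by
  classical
  have := J_countQ
  have : Countable J_K := inferInstance
  have : Nonempty J_K := ⟨Sum.inr (Sum.inl 0)⟩
  obtain ⟨e, he⟩ := exists_surjective_nat J_K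
  refine ⟨fun x m => decide (x ∈ J_E D (e m)), ?_, ?_⟩
  · refine continuous_pi fun m => ?_
    rw [continuous_discrete_rng]
    intro b
    cases b
    · have : (fun x => decide (x ∈ J_E D (e m))) ⁻¹' {false} = (J_E D (e m))ᶜ := by
        ext x; simp
      rw [this]
      exact (J_E_clopen D _).compl.isOpen
    · have : (fun x => decide (x ∈ J_E D (e m))) ⁻¹' {true} = J_E D (e m) := by
        ext x; simp
      rw [this]
      exact (J_E_clopen D _).isOpen
  · intro x y hxy
    refine J_sep D x y fun a => ?_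
    obtain ⟨m, rfl⟩ := he a
    have := congrFun hxy m
    simpa only [decide_eq_decide] using this

end Pool.Agent.LibSC37
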