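import Pool.Agent.LibSC37.Defs

/-! # traces of finite sets -/

open Set Filter Topology Cardinal TopologicalSpace

namespace Pool.Agent.LibSC37

universe u v

theorem K_sep {y r : T} (h : y ≠ r) : ∀ᶠ n in atTop, rs n y ≠ rs n r := by
  obtain ⟨i, hi⟩ := Function.ne_iff.mp h
  filter_upwards [eventually_gt_atTop i] with n hn he
  exact hi (congrFun he ⟨i, hn⟩)

theorem tr_eventually {F : Set T} (hF : F.Finite) (r : T) :
    ∀ᶠ n in atTop, (rs n r ∈ tr F n ↔ r ∈ F) := by
  have h1 : ∀ᶠ n in atTop, ∀ y ∈ F, y ≠ r → rs n y ≠ rs n r := by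
    rw [Filter.eventually_all_finite hF]
    intro y _
    by_cases hy : y = r
    · exact Eventually.of_forall fun n h => absurd hy h
    · exact (K_sep hy).mono fun n hn _ => hn
  filter_upwards [h1] with n hn
  constructor
  · rintro ⟨y, hy, hyr⟩
    by_cases h : y = r
    · exact h ▸ hy
    · exact absurd hyr (hn y hy h)
  · intro h
    exact ⟨r, h, rfl⟩

end Pool.Agent.LibSC37
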