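import Pool.Agent.LibSC37.Tasks

/-! # the number of tasks -/

open Set Filter Topology Cardinal TopologicalSpace

namespace Pool.Agent.LibSC37

universe u v

theorem mk_fun_le {α β : Type} [Countable α] (h : #β ≤ 𝔠) : #(α → β) ≤ 𝔠 := by
  rw [mk_arrow, lift_id, lift_id]
  calc #β ^ #α ≤ 𝔠 ^ #α := power_le_power_right h
    _ ≤ 𝔠 ^ ℵ₀ := power_le_power_left continuum_ne_zero mk_le_aleph0
    _ = 𝔠 := continuum_power_aleph0

theorem mk_list_le' {α : Type} (h : #α ≤ 𝔠) : #(List α) ≤ 𝔠 := by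
  refine (mk_list_le_max α).trans ?_
  exact max_le aleph0_le_continuum h

theorem mk_prod_le' {α β : Type} (ha : #α ≤ 𝔠) (hb : #β ≤ 𝔠) : #(α × β) ≤ 𝔠 := by
  rw [mk_prod, lift_id, lift_id]
  exact mul_le_of_le aleph0_le_continuum ha hb

theorem mk_task_le : #Task ≤ 𝔠 := by
  have hR : #ℝ ≤ 𝔠 := mk_real.le
  have hFam : #Fam ≤ 𝔠 := mk_fun_le (mk_fun_le hR)
  have hN : #ℕ ≤ 𝔠 := (mk_le_aleph0 (α := ℕ)).trans aleph0_le_continuum
  have hPar : #Par ≤ 𝔠 :=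
    mk_prod_le' (mk_list_le' (mk_prod_le' (mk_list_le' (mk_fun_le hN)) hR)) hR
  have hTe : #T = 𝔠 := by simp [T]
  have hT : #T ≤ 𝔠 := hTe.le
  have hinf : Infinite T := by
    rw [infinite_iff, hTe]
    exact aleph0_le_continuum
  have hFin : #(Finset T) ≤ 𝔠 := by
    rw [mk_finset_of_infinite]
    exact hT
  show #({e : Fam // 𝔠 ≤ #(Fail e)} ⊕
    {x : Fam × T × Finset T × Par // 𝔠 ≤ #(Good x.1 (x.2.2.1 : Set T) x.2.1)}) ≤ 𝔠
  rw [mk_sum, lift_id, lift_id]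
  refine add_le_of_le aleph0_le_continuum ((mk_subtype_le _).trans hFam)
    ((mk_subtype_le _).trans ?_)
  exact mk_prod_le' hFam (mk_prod_le' hT (mk_prod_le' hFin hPar))

end Pool.Agent.LibSC37
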