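import Pool.Agent.LibSC37.RowG
import Pool.Agent.LibSC37.RowK
import Pool.Agent.LibSC37.RowL

/-! # the data -/

open Set Filter Topology Cardinal TopologicalSpace

namespace Pool.Agent.LibSC37

universe u v

/-- The candidate branches of a task. -/
def M_C : Task → Set T
  | Sum.inl e => Fail e.1
  | Sum.inr x => Good x.1.1 (x.1.2.2.1 : Set T) x.1.2.1

/-- What is wanted for a task on the branch `t`. -/
def M_P : Task → T → (∀ n : ℕ, Set (Fin n → Bool)) → Prop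
  | Sum.inl e, t, S => ∃ l, ¬ ∃ c : ℝ, Tendsto (fun n => e.1 l (nd t S n)) atTop (𝓝 c)
  | Sum.inr x, t, S => ∃ b : List ℕ → ℝ,
      (∀ l, Tendsto (fun n => x.1.1 l (nd t S n)) atTop (𝓝 (b l))) ∧
      (Dec x.1.2.2.2 b → S = tr ((x.1.2.2.1 : Set T) \ {x.1.2.1})) ∧
      (¬ Dec x.1.2.2.2 b → S = tr (x.1.2.2.1 : Set T))

theorem M_card (i : Task) : 𝔠 ≤ #(M_C i) := by
  cases i with
  | inl e => exact e.2
  | inr x => exact x.2

theorem M_pc {F : Set T} (hF : F.Finite) : PC (tr F) := fun r => ⟨r ∈ F, tr_eventually hF r⟩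

theorem M_exists (i : Task) (t : T) (ht : t ∈ M_C i) : ∃ S, PC S ∧ M_P i t S := by
  classical
  cases i with
  | inl e =>
    obtain ⟨S, hS, l, hl⟩ := ht
    exact ⟨S, hS, l, hl⟩
  | inr x =>
    choose b hb using (show ∀ l, ∃ c : ℝ,
      Tendsto (fun n => x.1.1 l (nd t (tr (x.1.2.2.1 : Set T)) n)) atTop (𝓝 c) ∧
      Tendsto (fun n => x.1.1 l (nd t (tr ((x.1.2.2.1 : Set T) \ {x.1.2.1})) n)) atTop (𝓝 c)
      from ht)
    by_cases hd : Dec x.1.2.2.2 b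
    · exact ⟨tr ((x.1.2.2.1 : Set T) \ {x.1.2.1}),
        M_pc ((Finset.finite_toSet _).subset Set.sdiff_subset),
        b, fun l => (hb l).2, fun _ => rfl, fun h => absurd hd h⟩
    · exact ⟨tr (x.1.2.2.1 : Set T), M_pc (Finset.finite_toSet _),
        b, fun l => (hb l).1, fun h => absurd h hd, fun _ => rfl⟩

theorem exists_data : ∃ D : Data Task,
    (∀ (e : Fam) (h : 𝔠 ≤ #(Fail e)), ∃ l, ¬ ∃ c : ℝ,
      Tendsto (fun n => e l (nd (D.t (Sum.inl ⟨e, h⟩)) (D.S (Sum.inl ⟨e, h⟩)) n)) atTop (𝓝 c)) ∧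
    ∀ (e : Fam) (r : T) (F : Finset T) (π : Par) (h : 𝔠 ≤ #(Good e (F : Set T) r)),
      ∃ b : List ℕ → ℝ,
        (∀ l, Tendsto (fun n => e l (nd (D.t (Sum.inr ⟨(e, r, F, π), h⟩))
          (D.S (Sum.inr ⟨(e, r, F, π), h⟩)) n)) atTop (𝓝 (b l))) ∧
        (Dec π b → D.S (Sum.inr ⟨(e, r, F, π), h⟩) = tr ((F : Set T) \ {r})) ∧
        (¬ Dec π b → D.S (Sum.inr ⟨(e, r, F, π), h⟩) = tr (F : Set T)) := by
  obtain ⟨τ, hτ, hC⟩ := exists_distinct mk_task_le M_C M_card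
  choose S hS hP using fun i => M_exists i (τ i) (hC i)
  exact ⟨⟨τ, hτ, S, hS⟩, fun e h => hP (Sum.inl ⟨e, h⟩),
    fun e r F π h => hP (Sum.inr ⟨(e, r, F, π), h⟩)⟩

end Pool.Agent.LibSC37
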