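import Pool.Agent.LibSC37.Basic
import Pool.Agent.LibSC37.RowE
import Pool.Agent.LibSC37.RowF
import Pool.Agent.LibSC37.RowH2
import Pool.Agent.LibSC37.RowJ
import Pool.Agent.LibSC37.RowM

/-! # The main theorem -/

open Set Filter Topology Cardinal TopologicalSpace

namespace Pool.Agent.LibSC37

universe u v

theorem main : ∃ (X : Type) (_ : TopologicalSpace X),
    T35Space X ∧ IsSigmaSpace X ∧
    (∃ B : Set (Set X), IsTopologicalBasis B ∧ (∀ U ∈ B, IsClopen U) ∧ #B ≤ 𝔠) ∧
    (∃ f : X → (ℕ → Bool), Continuous f ∧ Function.Injective f) ∧ ¬ InClass.{u} X := by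
  classical
  obtain ⟨D, hD1, hD2⟩ := exists_data
  refine ⟨Sp D, inferInstance, t35 D, sigma_space D, exists_base D mk_task_le,
    exists_injection D, ?_⟩
  rintro ⟨M, tM, hmet, hsep, e, he⟩
  obtain ⟨g, hg, hev⟩ := eval_iter e he.continuous
  -- the family on the j-th copy
  let fam : ℕ → Fam := fun j l q => g l (Sp.pt j (Sum.inl q))
  -- limits at branches
  have hlim : ∀ (j : ℕ) (i : Task) (l : List ℕ),
      Tendsto (fun n => fam j l (nd (D.t i) (D.S i) n)) atTop (𝓝 (g l (Sp.pt j (Sum.inr i)))) := by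
    intro j i l
    exact ((hg l).tendsto _).comp (tendsto_branch D j i)
  -- no family fails often
  have hfail : ∀ j, #(Fail (fam j)) < 𝔠 := by
    intro j
    by_contra hcon
    push Not at hcon
    obtain ⟨l, hl⟩ := hD1 (fam j) hcon
    exact hl ⟨_, hlim j _ l⟩
  -- choose a good coordinate
  have hcount : (⋃ j, {r : T | ∃ F : Set T, F.Finite ∧ r ∈ F ∧
      #(Good (fam j) F r) < 𝔠}).Countable :=
    countable_iUnion fun j => countable_bad (fam j) (hfail j)
  obtain ⟨r, hr⟩ : ∃ r : T, r ∉ ⋃ j, {r : T | ∃ F : Set T, F.Finite ∧ r ∈ F ∧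
      #(Good (fam j) F r) < 𝔠} := by
    by_contra hcon
    push Not at hcon
    have h1 : (univ : Set T).Countable := hcount.mono fun x _ => hcon x
    exact uncountable_T (countable_univ_iff.1 h1)
  -- the neighbourhood given by r
  have hUo : IsOpen (mem D (Sum.inr (Sum.inr (Sum.inr r)))) := (isClopen_mem D _).isOpen
  have hinf : (Sp.inf : Sp D) ∈ mem D (Sum.inr (Sum.inr (Sum.inr r))) := by
    intro j y h
    cases h
  obtain ⟨V, hV, hVU⟩ := he.isInducing.isOpen_iff.1 hUo
  have hVn : V ∈ 𝓝 (e Sp.inf) := hV.mem_nhds (by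
    have : (Sp.inf : Sp D) ∈ e ⁻¹' V := by rw [hVU]; exact hinf
    exact this)
  -- basic neighbourhood in the topology of pointwise convergence
  obtain ⟨P, ε, hε, hP⟩ : ∃ (P : List (Σ n : ℕ, (Fin n → M))) (ε : ℝ), 0 < ε ∧
      ∀ x : Sp D, (∀ p ∈ P, |(e x).1 p - (e Sp.inf).1 p| < ε) → e x ∈ V := by
    obtain ⟨P, ε, hε, h⟩ := basic_nbhd hV (e Sp.inf) (mem_of_mem_nhds hVn)
    exact ⟨P, ε, hε, fun x hx => h (e x) hx⟩
  choose σ hσ using hev
  let π : Par := (P.map fun p => (σ p, (e Sp.inf).1 p), ε)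
  have hdec : ∀ x : Sp D, (∀ p ∈ P, |(e x).1 p - (e Sp.inf).1 p| < ε) ↔
      Dec π fun l => g l x := by
    intro x
    simp only [Dec, π, List.mem_map, forall_exists_index, and_imp,
      forall_apply_eq_imp_iff₂]
    constructor
    · intro h p hp
      have := h p hp
      rwa [hσ p x] at this
    · intro h p hp
      rw [hσ p x]
      exact h p hp
  -- continuity at infinity
  have hcont : {x : Sp D | ∀ p ∈ P, |(e x).1 p - (e Sp.inf).1 p| < ε} ∈ 𝓝 (Sp.inf : Sp D) :=
    nhds_eval he.continuous Sp.inf P hε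
  obtain ⟨k, F, hFfin, hkF⟩ := nhds_inf D hcont
  let F' : Finset T := hFfin.toFinset ∪ {r}
  have hF' : (F' : Set T) = insert r F := by
    ext x; simp [F']
  have hgood : 𝔠 ≤ #(Good (fam k) (F' : Set T) r) := by
    by_contra hcon
    push Not at hcon
    apply hr
    rw [mem_iUnion]
    exact ⟨k, F', F'.finite_toSet, by rw [hF']; exact mem_insert _ _, hcon⟩
  obtain ⟨b, hb, hb1, hb2⟩ := hD2 (fam k) r F' π hgood
  set i : Task := Sum.inr ⟨(fam k, r, F', π), hgood⟩ with hi
  have hbx : (fun l => g l (Sp.pt k (Sum.inr i))) = b := by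
    funext l
    exact tendsto_nhds_unique (hlim k i l) (hb l)
  by_cases hdb : Dec π b
  · -- the branch lies in the neighbourhood
    have h1 : Sp.pt k (Sum.inr i) ∈ mem D (Sum.inr (Sum.inr (Sum.inr r))) := by
      rw [← hVU]
      refine hP _ ((hdec _).2 ?_)
      rw [hbx]
      exact hdb
    have h2 : ∀ᶠ n in atTop, rs n r ∈ D.S i n := h1 k (Sum.inr i) rfl
    rw [hb1 hdb] at h2
    have h3 := tr_eventually (F := (F' : Set T) \ {r}) (F'.finite_toSet.subset sdiff_subset) r
    obtain ⟨n, hn1, hn2⟩ := (h2.and h3).exists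
    exact (hn2.1 hn1).2 rfl
  · have h1 : Sp.pt k (Sum.inr i) ∈ inU D k F := by
      intro j y hy
      cases hy
      refine ⟨le_rfl, fun s hs => ?_⟩
      show ∀ᶠ n in atTop, rs n s ∈ D.S i n
      rw [hb2 hdb]
      filter_upwards [tr_eventually (F := (F' : Set T)) F'.finite_toSet s] with n hn
      exact hn.2 (by rw [hF']; exact mem_insert_of_mem _ hs)
    have h2 := (hdec _).1 (hkF h1)
    rw [hbx] at h2
    exact hdb h2

end Pool.Agent.LibSC37
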