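import Pool.Agent.LibSC37.Defs

/-! # comeager sets have continuum many points in every cylinder -/

open Set Filter Topology Cardinal TopologicalSpace

namespace Pool.Agent.LibSC37

universe u v

/-- pointwise xor with a fixed point -/
def A_xr (g : T) : T ≃ₜ T where
  toFun y := fun i => xor (y i) (g i)
  invFun y := fun i => xor (y i) (g i)
  left_inv y := by
    funext i
    show xor (xor (y i) (g i)) (g i) = y i
    cases y i <;> cases g i <;> rfl
  right_inv y := by
    funext i
    show xor (xor (y i) (g i)) (g i) = y i
    cases y i <;> cases g i <;> rfl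
  continuous_toFun := by
    refine continuous_pi fun i => ?_
    exact (continuous_of_discreteTopology (f := fun b : Bool => xor b (g i))).comp
      (continuous_apply i)
  continuous_invFun := by
    refine continuous_pi fun i => ?_
    exact (continuous_of_discreteTopology (f := fun b : Bool => xor b (g i))).comp
      (continuous_apply i)

lemma A_xr_apply (g y : T) (i : ℕ) : A_xr g y i = xor (y i) (g i) := rfl

/-- A comeager set has continuum many points in every cylinder. -/
theorem residual_card {R : Set T} (hR : R ∈ residual T) (x : T) (N : ℕ) :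
    𝔠 ≤ #(R ∩ PiNat.cylinder (E := fun _ => Bool) x N : Set T) := by
  set D : Set T := R ∩ PiNat.cylinder (E := fun _ => Bool) x N with hD
  -- the difference map
  let f : D × D → T := fun p => fun i => xor (p.1.1 (i + N)) (p.2.1 (i + N))
  have hsurj : Function.Surjective f := by
    intro h
    let g : T := fun i => if i < N then false else h (i - N)
    have h1 : (A_xr g) ⁻¹' R ∈ residual T := by
      have h2 := (A_xr g).residual_map_eq
      rw [← h2] at hR
      exact hR
    have h3 : Dense (R ∩ (A_xr g) ⁻¹' R) := dense_of_mem_residual (Filter.inter_mem hR h1)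
    obtain ⟨y, hy, hyR, hyg⟩ := h3.inter_open_nonempty _
      (PiNat.isOpen_cylinder (E := fun _ => Bool) x N)
      ⟨x, PiNat.self_mem_cylinder x N⟩
    have hyg' : A_xr g y ∈ D := by
      refine ⟨hyg, fun i hi => ?_⟩
      rw [A_xr_apply]
      have : g i = false := if_pos hi
      rw [this, Bool.xor_false]
      exact hy i hi
    refine ⟨(⟨y, hyR, hy⟩, ⟨_, hyg'⟩), ?_⟩
    funext i
    show xor (y (i + N)) (A_xr g y (i + N)) = h i
    rw [A_xr_apply]
    have : g (i + N) = h i := by
      show (if i + N < N then false else h (i + N - N)) = h i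
      rw [if_neg (by omega), Nat.add_sub_cancel]
    rw [this]
    cases y (i + N) <;> cases h i <;> rfl
  have h1 : #T ≤ #(D × D) := mk_le_of_surjective hsurj
  have h2 : #T = 𝔠 := by
    rw [show #T = 2 ^ ℵ₀ by simp [T], two_power_aleph0]
  rw [h2, mk_prod, lift_id] at h1
  by_contra hcon
  rw [not_le] at hcon
  have h3 : #D * #D < 𝔠 := mul_lt_of_lt aleph0_le_continuum hcon hcon
  exact absurd h1 (not_le.2 h3)

end Pool.Agent.LibSC37
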