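import Pool.Agent.LibSC37.RowA

/-! # the sets `osc` -/

open Set Filter Topology Cardinal TopologicalSpace

namespace Pool.Agent.LibSC37

universe u v

lemma B_isOpen_of_prefix (P : T → Prop) (m : ℕ)
    (h : ∀ t t' : T, (∀ i < m, t' i = t i) → P t → P t') : IsOpen {t | P t} := by
  rw [(PiNat.isTopologicalBasis_cylinders (fun _ : ℕ => Bool)).isOpen_iff]
  intro t ht
  refine ⟨_, ⟨t, m, rfl⟩, PiNat.self_mem_cylinder t m, fun t' ht' => ?_⟩
  exact h t t' ht' ht

lemma B_nd_congr {t t' : T} {n : ℕ} (S : ∀ n : ℕ, Set (Fin n → Bool))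
    (h : ∀ i < n, t' i = t i) : nd t' S n = nd t S n := by
  have : rs n t' = rs n t := by
    funext i
    exact h i i.2
  simp only [nd, this]

theorem osc_isGδ (h : Q → ℝ) (F G : Set T) (k : ℕ) : IsGδ (osc h F G k) := by
  have e : osc h F G k = ⋂ N : ℕ, {t | ∃ a ≥ N, ∃ b ≥ N,
      1 / ((k : ℝ) + 1) < |h (nd t (tr F) a) - h (nd t (tr G) b)|} := by
    ext t
    simp only [osc, mem_ofPred_eq, mem_iInter]
  rw [e]
  refine IsGδ.iInter fun N => IsOpen.isGδ ?_
  have e2 : {t | ∃ a ≥ N, ∃ b ≥ N,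
      1 / ((k : ℝ) + 1) < |h (nd t (tr F) a) - h (nd t (tr G) b)|} =
      ⋃ a, ⋃ (_ : a ≥ N), ⋃ b, ⋃ (_ : b ≥ N),
        {t | 1 / ((k : ℝ) + 1) < |h (nd t (tr F) a) - h (nd t (tr G) b)|} := by
    ext t
    simp only [mem_ofPred_eq, mem_iUnion, exists_prop]
  rw [e2]
  refine isOpen_iUnion fun a => isOpen_iUnion fun _ => isOpen_iUnion fun b =>
    isOpen_iUnion fun _ => B_isOpen_of_prefix _ (max a b) fun t t' htt ht => ?_
  rw [B_nd_congr _ fun i hi => htt i (lt_of_lt_of_le hi (le_max_left _ _)),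
    B_nd_congr _ fun i hi => htt i (lt_of_lt_of_le hi (le_max_right _ _))]
  exact ht

lemma B_cauchy {x y : ℕ → ℝ} (h : ∀ k : ℕ, ∃ N, ∀ a ≥ N, ∀ b ≥ N,
    |x a - y b| ≤ 1 / ((k : ℝ) + 1)) :
    ∃ c : ℝ, Tendsto x atTop (𝓝 c) ∧ Tendsto y atTop (𝓝 c) := by
  have hx : CauchySeq x := by
    rw [Metric.cauchySeq_iff']
    intro ε hε
    obtain ⟨k, hk⟩ := exists_nat_one_div_lt (show (0 : ℝ) < ε / 2 by positivity)
    obtain ⟨N, hN⟩ := h k
    refine ⟨N, fun n hn => ?_⟩
    have h1 := hN n hn N le_rfl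
    have h2 := hN N le_rfl N le_rfl
    rw [Real.dist_eq]
    have h3 : |x n - x N| ≤ |x n - y N| + |x N - y N| := by
      have := abs_sub_le (x n) (y N) (x N)
      rwa [abs_sub_comm (y N)] at this
    linarith
  obtain ⟨c, hc⟩ := cauchySeq_tendsto_of_complete hx
  refine ⟨c, hc, ?_⟩
  rw [Metric.tendsto_atTop] at hc ⊢
  intro ε hε
  obtain ⟨k, hk⟩ := exists_nat_one_div_lt (show (0 : ℝ) < ε / 2 by positivity)
  obtain ⟨N, hN⟩ := h k
  obtain ⟨M, hM⟩ := hc (ε / 2) (by positivity)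
  refine ⟨max N M, fun n hn => ?_⟩
  have h1 := hN (max N M) (le_max_left _ _) n ((le_max_left _ _).trans hn)
  have h2 := hM (max N M) (le_max_right _ _)
  rw [Real.dist_eq] at h2 ⊢
  have h3 : |y n - c| ≤ |x (max N M) - y n| + |x (max N M) - c| := by
    have := abs_sub_le (y n) (x (max N M)) c
    rwa [abs_sub_comm (y n) (x (max N M))] at this
  linarith

theorem lim_of_not_osc {h : Q → ℝ} {F G : Set T} {t : T} (ht : ∀ k, t ∉ osc h F G k) :
    ∃ c : ℝ, Tendsto (fun n => h (nd t (tr F) n)) atTop (𝓝 c) ∧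
      Tendsto (fun n => h (nd t (tr G) n)) atTop (𝓝 c) := by
  refine B_cauchy fun k => ?_
  have h1 := ht k
  simp only [osc, mem_ofPred_eq, not_forall, not_exists, not_and, not_lt] at h1
  exact h1

/-- If `Good e F r` has less than continuum many points then one of the sets `osc` is dense in
some cylinder. -/
theorem dense_of_good_small {ι : Type v} [Countable ι] (e : ι → Q → ℝ) (F : Set T) (r : T)
    (hs : #(Good e F r) < 𝔠) :
    ∃ (l : ι) (k : ℕ) (x : T) (N : ℕ),
      PiNat.cylinder (E := fun _ => Bool) x N ⊆ closure (osc (e l) F (F \ {r}) k) := by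
  by_contra hcon
  push Not at hcon
  have h1 : ∀ l k, (closure (osc (e l) F (F \ {r}) k))ᶜ ∈ residual T := by
    intro l k
    refine residual_of_dense_open isClosed_closure.isOpen_compl ?_
    rw [← interior_eq_empty_iff_dense_compl, Set.eq_empty_iff_forall_notMem]
    intro x hx
    obtain ⟨s, ⟨y, N, rfl⟩, hxs, hsub⟩ :=
      (PiNat.isTopologicalBasis_cylinders (fun _ : ℕ => Bool)).isOpen_iff.1 isOpen_interior x hx
    exact hcon l k y N (hsub.trans interior_subset)
  have h2 : (⋂ l, ⋂ k, (closure (osc (e l) F (F \ {r}) k))ᶜ) ∈ residual T :=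
    countable_iInter_mem.2 fun l => countable_iInter_mem.2 fun k => h1 l k
  have h3 : (⋂ l, ⋂ k, (closure (osc (e l) F (F \ {r}) k))ᶜ) ⊆ Good e F r := by
    intro t ht l
    refine lim_of_not_osc fun k hk => ?_
    have h4 := mem_iInter.1 (mem_iInter.1 ht l) k
    exact h4 (subset_closure hk)
  have h5 := residual_card (Filter.mem_of_superset h2 h3) (fun _ => false) 0
  rw [PiNat.cylinder_zero, inter_univ] at h5
  exact absurd h5 (not_le.2 hs)

end Pool.Agent.LibSC37
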