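import Pool.Agent.LibSC37.Defs

/-! # distinct representatives -/

open Set Filter Topology Cardinal TopologicalSpace

namespace Pool.Agent.LibSC37

universe u v

theorem exists_distinct {I : Type} (hI : #I ≤ 𝔠) (C : I → Set T) (hC : ∀ i, 𝔠 ≤ #(C i)) :
    ∃ τ : I → T, Function.Injective τ ∧ ∀ i, τ i ∈ C i := by
  classical
  have he : #I = #((#I).ord.ToType) := (Cardinal.mk_ord_toType _).symm
  obtain ⟨e⟩ := Cardinal.eq.1 he
  have hT : Nonempty T := ⟨fun _ => false⟩
  let f : (#I).ord.ToType → T := WellFounded.fix (wellFounded_lt : WellFounded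
    ((· < ·) : (#I).ord.ToType → (#I).ord.ToType → Prop))
    (fun j g => Classical.epsilon fun x => x ∈ C (e.symm j) ∧ ∀ k (h : k < j), g k h ≠ x)
  have hf : ∀ j, f j = Classical.epsilon fun x =>
      x ∈ C (e.symm j) ∧ ∀ k, k < j → f k ≠ x := fun j => WellFounded.fix_eq _ _ _
  have hex : ∀ j, ∃ x, x ∈ C (e.symm j) ∧ ∀ k, k < j → f k ≠ x := by
    intro j
    by_contra hcon
    push Not at hcon
    have h1 : C (e.symm j) ⊆ f '' Iio j := by
      intro x hx
      obtain ⟨k, hk, hkx⟩ := hcon x hx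
      exact ⟨k, hk, hkx⟩
    have h2 : #(C (e.symm j)) ≤ #(f '' Iio j) := Cardinal.mk_le_mk_of_subset h1
    have h3 : #(f '' Iio j) ≤ #(Iio j) := Cardinal.mk_image_le
    have h4 : #(Iio j) < #I := Cardinal.mk_Iio_toType_ord_lt j
    exact absurd (((hC (e.symm j)).trans (h2.trans h3)).trans_lt (h4.trans_le hI)) (lt_irrefl _)
  have hsp : ∀ j, f j ∈ C (e.symm j) ∧ ∀ k, k < j → f k ≠ f j := by
    intro j
    have h1 := Classical.epsilon_spec (hex j)
    rw [← hf j] at h1
    exact h1
  refine ⟨fun i => f (e i), ?_, fun i => ?_⟩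
  · intro i i' h
    have h' : f (e i) = f (e i') := h
    rcases lt_trichotomy (e i) (e i') with h1 | h1 | h1
    · exact absurd h' ((hsp (e i')).2 _ h1)
    · exact e.injective h1
    · exact absurd h'.symm ((hsp (e i)).2 _ h1)
  · have h1 := (hsp (e i)).1
    rwa [Equiv.symm_apply_apply] at h1

end Pool.Agent.LibSC37
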