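import Pool.Agent.LibSC37.Defs

/-! # separation axioms -/

open Set Filter Topology Cardinal TopologicalSpace

namespace Pool.Agent.LibSC37

universe u v

variable {I : Type}

theorem chi_eq_iff (D : Data I) (x y : Sp D) (a : Ix I) :
    chi D x a = chi D y a ↔ (x ∈ mem D a ↔ y ∈ mem D a) := by
  unfold chi
  simp

theorem chi_injective (D : Data I) : Function.Injective (chi D) := by
  intro x y h
  have key : ∀ a, (x ∈ mem D a ↔ y ∈ mem D a) := fun a => (chi_eq_iff D x y a).1 (congrFun h a)
  rcases x with _ | ⟨j, (q | i)⟩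
  · rcases y with _ | ⟨j, y⟩
    · rfl
    · have := (key (Sum.inr (Sum.inr (Sum.inl j)))).2 ⟨y, rfl⟩
      obtain ⟨z, hz⟩ := this
      cases hz
  · exact ((key (Sum.inl (j, q))).1 rfl).symm
  · have h1 := (key (Sum.inr (Sum.inl (j, i)))).1 (Or.inl rfl)
    rcases h1 with h1 | ⟨n, h1⟩
    · exact h1.symm
    · have h2 := (key (Sum.inl (j, nd (D.t i) (D.S i) n))).2 h1
      cases h2

theorem chi_embedding (D : Data I) : IsEmbedding (chi D) :=
  ⟨⟨rfl⟩, chi_injective D⟩

theorem t35 (D : Data I) : T35Space (Sp D) := (chi_embedding D).t35Space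

theorem continuous_chi (D : Data I) (a : Ix I) : Continuous fun x => chi D x a :=
  (continuous_apply a).comp (chi_embedding D).continuous

theorem isClopen_mem (D : Data I) (a : Ix I) : IsClopen (mem D a) := by
  have h : mem D a = (fun x => chi D x a) ⁻¹' {true} := by
    ext x
    simp [chi]
  rw [h]
  exact (isClopen_discrete _).preimage (continuous_chi D a)

end Pool.Agent.LibSC37
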