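import Pool.Agent.LibSC37.RowH

/-! # convergence of the branches and neighbourhoods of infinity -/

open Set Filter Topology Cardinal TopologicalSpace

namespace Pool.Agent.LibSC37

universe u v

variable {I : Type}

theorem I_tendsto_iff (D : Data I) (f : ℕ → Sp D) (x : Sp D) :
    Tendsto f atTop (𝓝 x) ↔ ∀ a, ∀ᶠ n in atTop, (f n ∈ mem D a ↔ x ∈ mem D a) := by
  have h1 : (𝓝 x : Filter (Sp D)) = comap (chi D) (𝓝 (chi D x)) :=
    nhds_induced (chi D) x
  rw [h1, tendsto_comap_iff, tendsto_pi_nhds]
  refine forall_congr' fun a => ?_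
  rw [nhds_discrete, tendsto_pure]
  refine eventually_congr (Eventually.of_forall fun n => ?_)
  simp only [Function.comp, chi, decide_eq_decide]

/-- A branch converges. -/
theorem tendsto_branch (D : Data I) (j : ℕ) (i : I) :
    Tendsto (fun n => (Sp.pt j (Sum.inl (nd (D.t i) (D.S i) n)) : Sp D)) atTop
      (𝓝 (Sp.pt j (Sum.inr i))) := by
  rw [I_tendsto_iff]
  rintro (⟨j', q⟩ | ⟨j', i'⟩ | j' | r)
  · filter_upwards [eventually_gt_atTop q.1] with n hn
    simp only [mem, mem_setOf_eq, Sp.pt.injEq, Sum.inl.injEq, reduceCtorEq, and_false, iff_false,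
      not_and]
    rintro - h
    have : n = q.1 := by rw [← h]; rfl
    omega
  · by_cases hj : j = j'
    · by_cases hi : i = i'
      · subst hj hi
        refine Eventually.of_forall fun n => ?_
        simp only [mem, mem_setOf_eq]
        constructor
        · intro; left; trivial
        · intro; right; exact ⟨n, rfl⟩
      · have hne : D.t i ≠ D.t i' := fun h => hi (D.inj h)
        obtain ⟨k, hk⟩ := Function.ne_iff.1 hne
        filter_upwards [eventually_gt_atTop k] with n hn
        simp only [mem, mem_setOf_eq, Sp.pt.injEq, Sum.inl.injEq, Sum.inr.injEq, reduceCtorEq,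
          and_false, false_or, exists_false, or_false]
        constructor
        · rintro ⟨m, -, h⟩
          exfalso
          have hm : n = m := congrArg Sigma.fst h
          subst hm
          have h2 : (rs n (D.t i), D.S i n) = (rs n (D.t i'), D.S i' n) := by
            simpa [nd] using h
          have h3 : rs n (D.t i) = rs n (D.t i') := (Prod.ext_iff.1 h2).1
          exact hk (congrFun h3 ⟨k, hn⟩)
        · rintro ⟨-, h⟩
          exact absurd h hi
    · refine Eventually.of_forall fun n => ?_
      simp only [mem, mem_setOf_eq, Sp.pt.injEq, hj, false_and, exists_false, or_false]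
  · refine Eventually.of_forall fun n => ?_
    simp only [mem, mem_setOf_eq, Sp.pt.injEq, exists_and_left, exists_eq', and_true]
  · obtain ⟨b, hb⟩ := D.pc i r
    have hx : (∀ᶠ n in atTop, rs n r ∈ D.S i n) ↔ b := by
      constructor
      · intro h
        obtain ⟨n, h1, h2⟩ := (h.and hb).exists
        exact h2.1 h1
      · intro h
        filter_upwards [hb] with n hn
        exact hn.2 h
    filter_upwards [hb] with n hn
    simp only [mem, mem_setOf_eq, Sp.pt.injEq, and_imp]
    constructor
    · intro h j' y _ h2
      have h3 : inW D r (Sum.inl (nd (D.t i) (D.S i) n)) := h j _ rfl rfl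
      have h4 : b := hn.1 h3
      rw [← h2]
      exact hx.2 h4
    · intro h j' y _ h2
      have h3 : inW D r (Sum.inr i) := h j _ rfl rfl
      have h4 : b := hx.1 h3
      rw [← h2]
      exact hn.2 h4

/-- The number of the copy which occurs in an index. -/
def I_jj : Ix I → ℕ
  | Sum.inl (j, _) => j
  | Sum.inr (Sum.inl (j, _)) => j
  | Sum.inr (Sum.inr (Sum.inl j)) => j
  | Sum.inr (Sum.inr (Sum.inr _)) => 0

/-- The sets `inU` form a base at infinity. -/
theorem nhds_inf (D : Data I) {U : Set (Sp D)} (hU : U ∈ 𝓝 (Sp.inf : Sp D)) :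
    ∃ (k : ℕ) (F : Set T), F.Finite ∧ inU D k F ⊆ U := by
  have h1 : (𝓝 (Sp.inf : Sp D) : Filter (Sp D)) = comap (chi D) (𝓝 (chi D Sp.inf)) :=
    nhds_induced (chi D) _
  rw [h1, mem_comap] at hU
  obtain ⟨V, hV, hVU⟩ := hU
  rw [nhds_pi, Filter.mem_pi] at hV
  obtain ⟨s, hs, t, ht, htV⟩ := hV
  obtain ⟨M, hM⟩ := (hs.image I_jj).bddAbove
  refine ⟨M + 1, {r | (Sum.inr (Sum.inr (Sum.inr r)) : Ix I) ∈ s}, ?_, ?_⟩
  · refine Set.Finite.preimage (f := fun r : T => (Sum.inr (Sum.inr (Sum.inr r)) : Ix I)) ?_ hs
    intro a _ b _ h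
    simpa using h
  · intro x hx
    apply hVU
    apply htV
    intro a ha
    have hja : I_jj a ≤ M := hM ⟨a, ha, rfl⟩
    have key : chi D x a = chi D Sp.inf a := by
      simp only [chi, decide_eq_decide]
      rcases x with _ | ⟨j, y⟩
      · rfl
      · obtain ⟨hk, hF⟩ := hx j y rfl
        rcases a with ⟨j', q⟩ | ⟨j', i'⟩ | j' | r
        · have : j' ≤ M := hja
          simp only [mem, mem_setOf_eq, Sp.pt.injEq, reduceCtorEq, iff_false, not_and]
          intro h; omega
        · have : j' ≤ M := hja
          simp only [mem, mem_setOf_eq, Sp.pt.injEq, reduceCtorEq, exists_false, or_false,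
            iff_false, not_or, not_and, not_exists]
          constructor
          · intro h; omega
          · intro n h; omega
        · have : j' ≤ M := hja
          simp only [mem, mem_setOf_eq, Sp.pt.injEq, reduceCtorEq, exists_false,
            iff_false, not_and, not_exists]
          intro y h; omega
        · simp only [mem, mem_setOf_eq, Sp.pt.injEq, reduceCtorEq, false_imp_iff, implies_true,
            iff_true, and_imp]
          intro j' y' _ h2
          rw [← h2]
          exact hF r ha
    show chi D x a ∈ t a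
    rw [key]
    exact mem_of_mem_nhds (ht a)

end Pool.Agent.LibSC37
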