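import Pool.Agent.LibSC37.Defs

/-! # The tasks -/

open Set Filter Topology Cardinal TopologicalSpace

namespace Pool.Agent.LibSC37

/-- Families of functions on the nodes. -/
abbrev Fam : Type := List ℕ → Q → ℝ

/-- Parameters of a basic open set: finitely many iterated limits, centres, and a radius. -/
abbrev Par : Type := List (List (ℕ → ℕ) × ℝ) × ℝ

/-- The basic open set with the given parameters. -/
def Dec (π : Par) (b : List ℕ → ℝ) : Prop := ∀ a ∈ π.1, |iter a.1 b - a.2| < π.2

/-- The tasks. -/
abbrev Task : Type :=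
  {e : Fam // 𝔠 ≤ #(Fail e)} ⊕
    {x : Fam × T × Finset T × Par // 𝔠 ≤ #(Good x.1 (x.2.2.1 : Set T) x.2.1)}

end Pool.Agent.LibSC37
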